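import Pool.Agent.W868.FI.Stms

/-! Averaging over nearly invariant finite cells. -/

set_option linter.unusedSectionVars false

open MeasureTheory Set ProbabilityTheory

namespace Pool.Agent.W110.FI

open Pool.Agent.W868.FI

section basic

variable {Γ : Type} [Group Γ]

theorem loc_restr {β : Type} {φ : (Γ → Bool) → β} (h : Loc φ) :
    ∃ (K : Finset Γ) (ψ : (K → Bool) → β), ∀ y, φ y = ψ (fun k => y k) := by
  classical
  obtain ⟨K, hK⟩ := h
  refine ⟨K, fun u => φ (fun g => if h : g ∈ K then u ⟨g, h⟩ else false), fun y => ?_⟩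
  apply hK
  intro k hk
  have hk' : k ∈ K := hk
  simp [hk']

theorem loc_finite {β : Type} {φ : (Γ → Bool) → β} (h : Loc φ) : (range φ).Finite := by
  obtain ⟨K, ψ, hψ⟩ := loc_restr h
  refine (Set.finite_range ψ).subset ?_
  rintro _ ⟨y, rfl⟩
  exact ⟨_, (hψ y).symm⟩

theorem loc_measurable {β : Type} [MeasurableSpace β] {φ : (Γ → Bool) → β} (h : Loc φ) :
    Measurable φ := by
  obtain ⟨K, ψ, hψ⟩ := loc_restr h
  have h1 : φ = ψ ∘ fun y k => y (k : Γ) := funext hψ
  rw [h1]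
  refine (measurable_of_finite ψ).comp ?_
  exact measurable_pi_iff.2 fun k => measurable_pi_apply _

theorem loc_map {β β' : Type} {φ : (Γ → Bool) → β} (F : β → β') (h : Loc φ) :
    Loc (fun y => F (φ y)) := by
  obtain ⟨K, hK⟩ := h
  exact ⟨K, fun x y hxy => congrArg F (hK x y hxy)⟩

theorem loc_map₂ {β β' β'' : Type} {φ : (Γ → Bool) → β} {ψ : (Γ → Bool) → β'}
    (F : β → β' → β'') (h : Loc φ) (h' : Loc ψ) : Loc (fun y => F (φ y) (ψ y)) := by
  classical
  obtain ⟨K, hK⟩ := h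
  obtain ⟨K', hK'⟩ := h'
  refine ⟨K ∪ K', fun x y hxy => ?_⟩
  rw [Finset.coe_union] at hxy
  exact congrArg₂ F (hK x y fun k hk => hxy k (Or.inl hk)) (hK' x y fun k hk => hxy k (Or.inr hk))

theorem loc_sh {β : Type} {φ : (Γ → Bool) → β} (g : Γ) (h : Loc φ) :
    Loc (fun y => φ (sh g y)) := by
  classical
  obtain ⟨K, hK⟩ := h
  refine ⟨K.image (fun k => k * g), fun x y hxy => ?_⟩
  apply hK
  intro k hk
  exact hxy _ (Finset.mem_coe.2 (Finset.mem_image_of_mem _ hk))

theorem loc_all (L : Finset Γ) (p : Γ → (Γ → Bool) → Prop) (h : ∀ l ∈ L, Loc (p l)) :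
    Loc (fun y => ∀ l ∈ L, p l y) := by
  classical
  choose! K hK using h
  refine ⟨L.biUnion K, fun x y hxy => ?_⟩
  have h1 : ∀ l ∈ L, p l x = p l y := fun l hl =>
    hK l hl x y fun k hk => hxy k (Finset.mem_coe.2 (Finset.mem_biUnion.2 ⟨l, hl, hk⟩))
  apply propext
  constructor
  · intro h l hl
    rw [← h1 l hl]
    exact h l hl
  · intro h l hl
    rw [h1 l hl]
    exact h l hl

theorem measurable_sh (g : Γ) : Measurable (sh g : (Γ → Bool) → (Γ → Bool)) :=
  measurable_pi_iff.2 fun _ => measurable_pi_apply _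

/-- bounded measurable -/
def BM (f : (Γ → Bool) → ℝ) : Prop := Measurable f ∧ ∃ C : ℝ, ∀ y, |f y| ≤ C

theorem loc_BM {f : (Γ → Bool) → ℝ} (h : Loc f) : BM f := by
  refine ⟨loc_measurable h, ?_⟩
  obtain ⟨C, hC⟩ := ((loc_finite h).image fun x => |x|).bddAbove
  exact ⟨C, fun y => hC ⟨f y, ⟨y, rfl⟩, rfl⟩⟩

theorem BM.const (a : ℝ) : BM (fun _ : Γ → Bool => a) := ⟨measurable_const, |a|, fun _ => le_rfl⟩

theorem BM.add {f g : (Γ → Bool) → ℝ} (hf : BM f) (hg : BM g) : BM (fun y => f y + g y) := by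
  obtain ⟨hf1, C, hC⟩ := hf
  obtain ⟨hg1, C', hC'⟩ := hg
  exact ⟨hf1.add hg1, C + C', fun y => (abs_add_le _ _).trans (add_le_add (hC y) (hC' y))⟩

theorem BM.mul {f g : (Γ → Bool) → ℝ} (hf : BM f) (hg : BM g) : BM (fun y => f y * g y) := by
  obtain ⟨hf1, C, hC⟩ := hf
  obtain ⟨hg1, C', hC'⟩ := hg
  refine ⟨hf1.mul hg1, C * C', fun y => ?_⟩
  rw [abs_mul]
  exact mul_le_mul (hC y) (hC' y) (abs_nonneg _) ((abs_nonneg _).trans (hC y))

theorem BM.sub {f g : (Γ → Bool) → ℝ} (hf : BM f) (hg : BM g) : BM (fun y => f y - g y) := by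
  have h := hf.add ((BM.const (-1)).mul hg)
  have h1 : (fun y => f y - g y) = fun y => f y + (-1) * g y := by
    funext y; ring
  rw [h1]; exact h

theorem BM.sum {ι : Type} (s : Finset ι) (f : ι → (Γ → Bool) → ℝ) (h : ∀ i ∈ s, BM (f i)) :
    BM (fun y => ∑ i ∈ s, f i y) := by
  classical
  induction s using Finset.induction_on with
  | empty => simpa using BM.const (0 : ℝ)
  | insert a s ha ih =>
    simp only [Finset.sum_insert ha]
    exact (h a (Finset.mem_insert_self a s)).add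
      (ih fun i hi => h i (Finset.mem_insert_of_mem hi))

theorem BM.sh {f : (Γ → Bool) → ℝ} (g : Γ) (hf : BM f) :
    BM (fun y => f (Pool.Agent.W868.FI.sh g y)) :=
  ⟨hf.1.comp (measurable_sh g), hf.2.choose, fun _ => hf.2.choose_spec _⟩

variable (ν : Measure Bool) [IsProbabilityMeasure ν]

theorem BM.int {f : (Γ → Bool) → ℝ} (hf : BM f) : Integrable f (iid Γ ν) :=
  Integrable.of_bound hf.1.aestronglyMeasurable hf.2.choose (ae_of_all _ hf.2.choose_spec)

theorem map_sh (g : Γ) : (iid Γ ν).map (sh g) = iid Γ ν := by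
  have h := Measure.map_infinitePi_infinitePi_of_inj (P := fun _ : Γ => ν)
    (f := fun δ : Γ => δ * g) (mul_left_injective g)
  exact h

theorem int_sh (g : Γ) {f : (Γ → Bool) → ℝ} (hf : Measurable f) :
    ∫ y, f (sh g y) ∂(iid Γ ν) = ∫ y, f y ∂(iid Γ ν) := by
  conv_rhs => rw [← map_sh ν g]
  rw [integral_map (measurable_sh g).aemeasurable hf.aestronglyMeasurable]

end basic

section cells

variable {Γ : Type} [Group Γ] (c : (Γ → Bool) → Γ)

open Classical in
/-- the indicator of the cell of `1` -/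
noncomputable def ch (g : Γ) (y : Γ → Bool) : ℝ := if c (sh g y) * g = c y then 1 else 0

variable {c}

theorem cell_sh {g h : Γ} {y : Γ → Bool} (hh : c (sh h y) * h = c y) :
    c (sh g (sh h y)) * g = c (sh h y) ↔ c (sh (g * h) y) * (g * h) = c y := by
  rw [sh_sh, ← mul_assoc, ← hh]
  exact (mul_left_inj h).symm

theorem ch_inv (g : Γ) (y : Γ → Bool) : ch c g (sh g⁻¹ y) = ch c g⁻¹ y := by
  unfold ch
  rw [sh_sh, mul_inv_cancel, sh_one]
  have h : c y * g = c (sh g⁻¹ y) ↔ c (sh g⁻¹ y) * g⁻¹ = c y := by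
    constructor
    · intro h; rw [← h]; simp
    · intro h; rw [← h]; simp
  by_cases h1 : c y * g = c (sh g⁻¹ y)
  · rw [if_pos h1, if_pos (h.1 h1)]
  · rw [if_neg h1, if_neg (fun h2 => h1 (h.2 h2))]

theorem loc_ch (hc : Loc c) (g : Γ) : Loc (ch c g) := by
  classical
  exact loc_map₂ (fun a b => if a * g = b then (1 : ℝ) else 0) (loc_sh g hc) hc

theorem exists_D (hc : Loc c) : ∃ D : Finset Γ, (∀ g y, c (sh g y) * g = c y → g ∈ D) ∧
    ∀ g ∈ D, g⁻¹ ∈ D := by
  classical
  let R := (loc_finite hc).toFinset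
  refine ⟨Finset.image₂ (fun a b => a⁻¹ * b) R R, ?_, ?_⟩
  · intro g y h
    refine Finset.mem_image₂.2 ⟨c (sh g y), ?_, c y, ?_, ?_⟩
    · exact (Set.Finite.mem_toFinset _).2 ⟨_, rfl⟩
    · exact (Set.Finite.mem_toFinset _).2 ⟨_, rfl⟩
    · rw [← h]; simp
  · intro g hg
    obtain ⟨a, ha, b, hb, rfl⟩ := Finset.mem_image₂.1 hg
    exact Finset.mem_image₂.2 ⟨b, hb, a, ha, by simp⟩

/-- change of variables in a sum over the cell -/
theorem sum_cell (D : Finset Γ) (hD : ∀ g y, c (sh g y) * g = c y → g ∈ D)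
    {h : Γ} {y : Γ → Bool} (hh : c (sh h y) * h = c y) (F : Γ → ℝ) :
    ∑ g ∈ D, ch c g (sh h y) * F (g * h) = ∑ g ∈ D, ch c g y * F g := by
  classical
  have h1 : ∀ (z : Γ → Bool) (F' : Γ → ℝ), ∑ g ∈ D, ch c g z * F' g =
      ∑ g ∈ D.filter (fun g => c (sh g z) * g = c z), F' g := by
    intro z F'
    rw [Finset.sum_filter]
    refine Finset.sum_congr rfl fun g _ => ?_
    unfold ch
    split_ifs <;> simp
  rw [h1 (sh h y) (fun g => F (g * h)), h1 y F]
  refine Finset.sum_nbij' (fun g => g * h) (fun g => g * h⁻¹) ?_ ?_ ?_ ?_ ?_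
  · intro g hg
    rw [Finset.mem_filter] at hg ⊢
    have h2 := (cell_sh hh).1 hg.2
    exact ⟨hD _ _ h2, h2⟩
  · intro g hg
    rw [Finset.mem_filter] at hg ⊢
    have h2 : c (sh (g * h⁻¹ * h) y) * (g * h⁻¹ * h) = c y := by
      rw [inv_mul_cancel_right]; exact hg.2
    have h3 := (cell_sh hh).2 h2
    exact ⟨hD _ _ h3, h3⟩
  · intro g _; simp
  · intro g _; simp
  · intro g _; rfl

/-- mass transport -/
theorem mass (ν : Measure Bool) [IsProbabilityMeasure ν] (hc : Loc c) (D : Finset Γ)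
    (hD : ∀ g y, c (sh g y) * g = c y → g ∈ D) (hDi : ∀ g ∈ D, g⁻¹ ∈ D)
    (b θ : (Γ → Bool) → ℝ) (hb : BM b) (hθ : BM θ)
    (hbi : ∀ g y, c (sh g y) * g = c y → b (sh g y) = b y) :
    (∀ y, 1 ≤ ∑ g ∈ D, ch c g y) ∧ BM (fun y => (∑ g ∈ D, ch c g y)⁻¹) ∧
    ∫ y, b y * θ y ∂(iid Γ ν) =
      ∫ y, b y * (∑ g ∈ D, ch c g y)⁻¹ * ∑ g ∈ D, ch c g y * θ (sh g y) ∂(iid Γ ν) := by
  classical
  set N : (Γ → Bool) → ℝ := fun y => ∑ g ∈ D, ch c g y with hN
  have hch0 : ∀ g y, 0 ≤ ch c g y := by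
    intro g y; unfold ch; split_ifs <;> norm_num
  have h1D : (1 : Γ) ∈ D := hD 1 (fun _ => false) (by rw [sh_one, mul_one])
  have hN1 : ∀ y, 1 ≤ N y := by
    intro y
    have h1 : ch c 1 y = 1 := by
      unfold ch
      rw [sh_one, mul_one, if_pos rfl]
    rw [hN, ← h1]
    exact Finset.single_le_sum (fun g _ => hch0 g y) h1D
  have hNm : Measurable N := (BM.sum D (fun g => ch c g) fun g _ => loc_BM (loc_ch hc g)).1
  have hNi : BM (fun y => (N y)⁻¹) := by
    refine ⟨hNm.inv, 1, fun y => ?_⟩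
    rw [abs_inv, abs_of_pos (by linarith [hN1 y])]
    exact inv_le_one_of_one_le₀ (hN1 y)
  refine ⟨hN1, hNi, ?_⟩
  have hNinv : ∀ g y, c (sh g y) * g = c y → N (sh g y) = N y := by
    intro g y h
    have := sum_cell D hD h (fun _ => (1 : ℝ))
    simpa [hN] using this
  have hterm : ∀ g, BM (fun y => ch c g y * (b y * θ y * (N y)⁻¹)) := fun g =>
    (loc_BM (loc_ch hc g)).mul ((hb.mul hθ).mul hNi)
  have hterm2 : ∀ g, BM (fun y => ch c g y * (b y * θ (sh g y) * (N y)⁻¹)) := fun g =>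
    (loc_BM (loc_ch hc g)).mul ((hb.mul (hθ.sh g)).mul hNi)
  calc ∫ y, b y * θ y ∂(iid Γ ν)
      = ∫ y, ∑ g ∈ D, ch c g y * (b y * θ y * (N y)⁻¹) ∂(iid Γ ν) := by
        congr 1
        funext y
        rw [← Finset.sum_mul]
        change b y * θ y = N y * (b y * θ y * (N y)⁻¹)
        have : N y ≠ 0 := by linarith [hN1 y]
        field_simp
    _ = ∑ g ∈ D, ∫ y, ch c g y * (b y * θ y * (N y)⁻¹) ∂(iid Γ ν) :=
        integral_finsetSum _ fun g _ => (hterm g).int ν
    _ = ∑ g ∈ D, ∫ y, ch c g⁻¹ y * (b y * θ (sh g⁻¹ y) * (N y)⁻¹) ∂(iid Γ ν) := by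
        refine Finset.sum_congr rfl fun g _ => ?_
        rw [← int_sh ν g⁻¹ (hterm g).1]
        congr 1
        funext y
        rw [ch_inv]
        by_cases h : c (sh g⁻¹ y) * g⁻¹ = c y
        · rw [hbi _ _ h, hNinv _ _ h]
        · have : ch c g⁻¹ y = 0 := by unfold ch; rw [if_neg h]
          rw [this, zero_mul, zero_mul]
    _ = ∑ g ∈ D, ∫ y, ch c g y * (b y * θ (sh g y) * (N y)⁻¹) ∂(iid Γ ν) := by
        refine Finset.sum_nbij' (fun g => g⁻¹) (fun g => g⁻¹) hDi hDi ?_ ?_ ?_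
        · intro g _; simp
        · intro g _; simp
        · intro g _; rfl
    _ = ∫ y, ∑ g ∈ D, ch c g y * (b y * θ (sh g y) * (N y)⁻¹) ∂(iid Γ ν) :=
        (integral_finsetSum _ fun g _ => (hterm2 g).int ν).symm
    _ = _ := by
        congr 1
        funext y
        rw [Finset.mul_sum]
        refine Finset.sum_congr rfl fun g _ => ?_
        ring

end cells

section indep

variable {Γ : Type} [Group Γ] (ν : Measure Bool) [IsProbabilityMeasure ν]

theorem indep_int {φ : (Γ → Bool) → ℝ} (W : Finset Γ) (hW : DepOn (W : Set Γ) φ) {g h : Γ}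
    (hgh : ∀ k ∈ W, ∀ k' ∈ W, k * g ≠ k' * h) :
    ∫ y, φ (sh g y) * φ (sh h y) ∂(iid Γ ν) =
      (∫ y, φ y ∂(iid Γ ν)) * ∫ y, φ y ∂(iid Γ ν) := by
  classical
  have hφ : Loc φ := ⟨W, hW⟩
  have hcoord : iIndepFun (fun (i : Γ) (y : Γ → Bool) => y i) (iid Γ ν) :=
    iIndepFun_infinitePi (X := fun _ x => x) (P := fun _ : Γ => ν) (fun _ => measurable_id)
  have hdis : Disjoint (W.image fun k => k * g) (W.image fun k => k * h) := by
    rw [Finset.disjoint_left]
    intro x hx hx'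
    obtain ⟨k, hk, rfl⟩ := Finset.mem_image.1 hx
    obtain ⟨k', hk', hkk⟩ := Finset.mem_image.1 hx'
    exact hgh k hk k' hk' hkk.symm
  have hind := hcoord.indepFun_finset _ _ hdis (fun i => measurable_pi_apply i)
  have hfac : ∀ g : Γ, ∃ F : ((W.image fun k => k * g) → Bool) → ℝ,
      ∀ y : Γ → Bool, φ (sh g y) = F (fun i => y i) := by
    intro g
    refine ⟨fun u => φ (fun k => if h : k * g ∈ W.image fun k => k * g then u ⟨k * g, h⟩
      else false), fun y => ?_⟩
    apply hW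
    intro k hk
    have hk' : k * g ∈ W.image fun k => k * g := Finset.mem_image_of_mem _ hk
    simp only [dif_pos hk']
    rfl
  obtain ⟨F, hF⟩ := hfac g
  obtain ⟨F', hF'⟩ := hfac h
  have hind2 := hind.comp (measurable_of_finite F) (measurable_of_finite F')
  have hm1 : Measurable (fun y : Γ → Bool => φ (sh g y)) :=
    (loc_measurable hφ).comp (measurable_sh g)
  have hm2 : Measurable (fun y : Γ → Bool => φ (sh h y)) :=
    (loc_measurable hφ).comp (measurable_sh h)
  have e1 : (F ∘ fun (a : Γ → Bool) (i : (W.image fun k => k * g)) => a i) =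
      fun y => φ (sh g y) := by
    funext y; exact (hF y).symm
  have e2 : (F' ∘ fun (a : Γ → Bool) (i : (W.image fun k => k * h)) => a i) =
      fun y => φ (sh h y) := by
    funext y; exact (hF' y).symm
  rw [e1, e2] at hind2
  have h3 := hind2.integral_fun_mul_eq_mul_integral hm1.aestronglyMeasurable
    hm2.aestronglyMeasurable
  rw [h3, int_sh ν g (loc_measurable hφ), int_sh ν h (loc_measurable hφ)]

theorem exists_seq [Infinite Γ] (W : Finset Γ) (h1 : (1 : Γ) ∈ W) :
    ∃ γ : ℕ → Γ, Function.Injective γ ∧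
      ∀ i j, i ≠ j → ∀ k ∈ W, ∀ k' ∈ W, k * γ i ≠ k' * γ j := by
  classical
  obtain ⟨γ, -, hγ⟩ := exists_seq_of_forall_finset_exists (fun _ : Γ => True)
    (fun x y => ∀ k ∈ W, ∀ k' ∈ W, k * x ≠ k' * y) (by
      intro s _
      obtain ⟨y, hy⟩ := Infinite.exists_notMem_finset
        ((W ×ˢ (W ×ˢ s)).image fun p => p.1⁻¹ * (p.2.1 * p.2.2))
      refine ⟨y, trivial, fun x hx k hk k' hk' h => hy ?_⟩
      refine Finset.mem_image.2 ⟨(k', k, x), ?_, ?_⟩
      · simp [hk, hk', hx]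
      · simp only
        rw [h]; simp)
  have hγ' : ∀ i j, i ≠ j → ∀ k ∈ W, ∀ k' ∈ W, k * γ i ≠ k' * γ j := by
    intro i j hij k hk k' hk'
    rcases lt_or_gt_of_ne hij with h | h
    · exact hγ i j h k hk k' hk'
    · exact (hγ j i h k' hk' k hk).symm
  refine ⟨γ, ?_, hγ'⟩
  intro i j hij
  by_contra hne
  exact hγ' i j hne 1 h1 1 h1 (by rw [hij])

/-- the second moment of an average -/
theorem var {φ : (Γ → Bool) → ℝ} (W : Finset Γ) (hW : DepOn (W : Set Γ) φ) (C : ℝ)
    (hC : ∀ y, |φ y| ≤ C) (γ : ℕ → Γ)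
    (hγ : ∀ i j, i ≠ j → ∀ k ∈ W, ∀ k' ∈ W, k * γ i ≠ k' * γ j) (m : ℕ) (hm : 0 < m) :
    ∫ y, ((m : ℝ)⁻¹ * ∑ i ∈ Finset.range m, φ (sh (γ i) y) - ∫ z, φ z ∂(iid Γ ν)) ^ 2 ∂(iid Γ ν)
      ≤ 4 * C ^ 2 / m := by
  classical
  have hφ : Loc φ := ⟨W, hW⟩
  have hC0 : 0 ≤ C := (abs_nonneg _).trans (hC fun _ => false)
  set E := ∫ z, φ z ∂(iid Γ ν) with hE
  have hEC : |E| ≤ C := by
    have h1 := norm_integral_le_of_norm_le_const (μ := iid Γ ν) (f := φ) (C := C)
      (ae_of_all _ hC)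
    simpa using h1
  let X : ℕ → (Γ → Bool) → ℝ := fun i y => φ (sh (γ i) y) - E
  have hX : ∀ i, BM (X i) := fun i => ((loc_BM hφ).sh (γ i)).sub (BM.const E)
  have hXC : ∀ i y, |X i y| ≤ 2 * C := by
    intro i y
    have h1 := abs_sub (φ (sh (γ i) y)) E
    have h2 := hC (sh (γ i) y)
    change |φ (sh (γ i) y) - E| ≤ 2 * C
    linarith
  have hmm : (0 : ℝ) < m := by exact_mod_cast hm
  have h1 : ∀ y, ((m : ℝ)⁻¹ * ∑ i ∈ Finset.range m, φ (sh (γ i) y) - E) ^ 2 =
      ((m : ℝ)⁻¹) ^ 2 * ∑ i ∈ Finset.range m, ∑ j ∈ Finset.range m, X i y * X j y := by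
    intro y
    have h2 : (m : ℝ)⁻¹ * ∑ i ∈ Finset.range m, φ (sh (γ i) y) - E =
        (m : ℝ)⁻¹ * ∑ i ∈ Finset.range m, X i y := by
      simp only [X]
      rw [Finset.sum_sub_distrib, Finset.sum_const, Finset.card_range, nsmul_eq_mul]
      field_simp
    rw [h2, mul_pow, sq (∑ i ∈ Finset.range m, X i y), Finset.sum_mul_sum]
  have h2 : ∫ y, ((m : ℝ)⁻¹ * ∑ i ∈ Finset.range m, φ (sh (γ i) y) - E) ^ 2 ∂(iid Γ ν) =
      ((m : ℝ)⁻¹) ^ 2 * ∑ i ∈ Finset.range m, ∑ j ∈ Finset.range m,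
        ∫ y, X i y * X j y ∂(iid Γ ν) := by
    rw [integral_congr_ae (ae_of_all _ h1), integral_const_mul]
    congr 1
    rw [integral_finsetSum]
    · refine Finset.sum_congr rfl fun i _ => ?_
      rw [integral_finsetSum]
      intro j _
      exact ((hX i).mul (hX j)).int ν
    · intro i _
      exact (BM.sum (Finset.range m) (fun j y => X i y * X j y)
        fun j _ => (hX i).mul (hX j)).int ν
  have h3 : ∀ i j, ∫ y, X i y * X j y ∂(iid Γ ν) ≤ if i = j then 4 * C ^ 2 else 0 := by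
    intro i j
    split_ifs with hij
    · subst hij
      have h4 : ∀ y, X i y * X i y ≤ 4 * C ^ 2 := by
        intro y
        have h5 := hXC i y
        rw [← sq, ← sq_abs]
        nlinarith [abs_nonneg (X i y)]
      have h6 := integral_mono (((hX i).mul (hX i)).int ν) ((BM.const (4 * C ^ 2)).int ν) h4
      refine h6.trans ?_
      rw [integral_const]
      simp
    · have h4 := indep_int ν W hW (hγ i j hij)
      have h5 : ∀ y, X i y * X j y = φ (sh (γ i) y) * φ (sh (γ j) y) -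
          (E * φ (sh (γ i) y) + E * φ (sh (γ j) y)) + E * E := by
        intro y; simp only [X]; ring
      rw [integral_congr_ae (ae_of_all _ h5)]
      have b1 : BM (fun y => φ (sh (γ i) y)) := (loc_BM hφ).sh (γ i)
      have b2 : BM (fun y => φ (sh (γ j) y)) := (loc_BM hφ).sh (γ j)
      rw [integral_add (((b1.mul b2).sub (((BM.const E).mul b1).add ((BM.const E).mul b2))).int ν)
        ((BM.const (E * E)).int ν),
        integral_sub ((b1.mul b2).int ν) ((((BM.const E).mul b1).add ((BM.const E).mul b2)).int ν),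
        integral_add (((BM.const E).mul b1).int ν) (((BM.const E).mul b2).int ν),
        integral_const_mul, integral_const_mul, h4, int_sh ν _ (loc_measurable hφ),
        int_sh ν _ (loc_measurable hφ), integral_const, ← hE]
      simp
  rw [h2]
  have h4 : ∑ i ∈ Finset.range m, ∑ j ∈ Finset.range m, ∫ y, X i y * X j y ∂(iid Γ ν) ≤
      m * (4 * C ^ 2) := by
    calc ∑ i ∈ Finset.range m, ∑ j ∈ Finset.range m, ∫ y, X i y * X j y ∂(iid Γ ν)
        ≤ ∑ i ∈ Finset.range m, ∑ j ∈ Finset.range m, (if i = j then 4 * C ^ 2 else 0) :=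
          Finset.sum_le_sum fun i _ => Finset.sum_le_sum fun j _ => h3 i j
      _ = ∑ i ∈ Finset.range m, (4 * C ^ 2) := by
          refine Finset.sum_congr rfl fun i hi => ?_
          rw [Finset.sum_ite_eq, if_pos hi]
      _ = m * (4 * C ^ 2) := by
          rw [Finset.sum_const, Finset.card_range, nsmul_eq_mul]
  calc ((m : ℝ)⁻¹) ^ 2 * ∑ i ∈ Finset.range m, ∑ j ∈ Finset.range m,
        ∫ y, X i y * X j y ∂(iid Γ ν) ≤ ((m : ℝ)⁻¹) ^ 2 * (m * (4 * C ^ 2)) :=
        mul_le_mul_of_nonneg_left h4 (by positivity)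
    _ = 4 * C ^ 2 / m := by
        field_simp

end indep

theorem avg : S_AVG := by
  classical
  intro Γ _ _ _ ν _ φ hφ hE K M hK L ε hε
  set E := ∫ y, φ y ∂(iid Γ ν) with hEdef
  obtain ⟨W₀, hW₀⟩ := hφ
  let W : Finset Γ := insert 1 W₀
  have hW : DepOn (W : Set Γ) φ := fun x y hxy => hW₀ x y fun k hk =>
    hxy k (Finset.mem_coe.2 (Finset.mem_insert_of_mem hk))
  have hφ : Loc φ := ⟨W₀, hW₀⟩
  have h1W : (1 : Γ) ∈ W := Finset.mem_insert_self _ _
  obtain ⟨γ, hγi, hγ⟩ := exists_seq W h1W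
  obtain ⟨hφm, C, hC⟩ := loc_BM hφ
  have hC0 : 0 ≤ C := (abs_nonneg _).trans (hC fun _ => false)
  set Mp : ℝ := max M 0 with hMp
  have hMp0 : 0 ≤ Mp := le_max_right _ _
  have hMM : M ≤ Mp := le_max_left _ _
  set e0 : ℝ := ε * E with he0
  have he0pos : 0 < e0 := mul_pos hε hE
  set η : ℝ := e0 / 4 with hη
  have hηpos : 0 < η := by positivity
  obtain ⟨m, hm⟩ := exists_nat_ge (4 * Mp / e0 + 4 * (4 * C ^ 2) / (η * e0) + 1)
  have hA1 : 0 ≤ 4 * Mp / e0 := by positivity
  have hA2 : 0 ≤ 4 * (4 * C ^ 2) / (η * e0) := by positivity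
  have hm1 : (1 : ℝ) ≤ m := by linarith
  have hm0 : (0 : ℝ) < m := by linarith
  have hmpos : 0 < m := by exact_mod_cast hm0
  have hmA : Mp / m ≤ e0 / 4 := by
    have h1 : 4 * Mp / e0 ≤ m := by linarith
    rw [div_le_iff₀ he0pos] at h1
    rw [div_le_iff₀ hm0]
    linarith
  have hmB : 4 * C ^ 2 / m / η ≤ e0 / 4 := by
    have h1 : 4 * (4 * C ^ 2) / (η * e0) ≤ m := by linarith
    rw [div_le_iff₀ (by positivity)] at h1
    rw [div_le_iff₀ hηpos, div_le_iff₀ hm0]
    linarith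
  let S : Finset Γ := L ∪ (Finset.range m).image γ
  have hLS : ∀ l ∈ L, l ∈ S := fun l hl => Finset.mem_union_left _ hl
  have hγS : ∀ i ∈ Finset.range m, γ i ∈ S := fun i hi =>
    Finset.mem_union_right _ (Finset.mem_image_of_mem _ hi)
  have hScard : (m : ℝ) ≤ S.card := by
    have h1 : ((Finset.range m).image γ).card = m := by
      rw [Finset.card_image_of_injective _ hγi, Finset.card_range]
    have h2 : ((Finset.range m).image γ).card ≤ S.card :=
      Finset.card_le_card Finset.subset_union_right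
    rw [h1] at h2
    exact_mod_cast h2
  refine ⟨S, e0 / (4 * (Mp + K + C + 1)), by positivity, ?_⟩
  set δ : ℝ := e0 / (4 * (Mp + K + C + 1)) with hδ
  have hδ1 : (Mp + K + C) * δ ≤ e0 / 4 := by
    have h1 : 0 < 4 * (Mp + K + C + 1) := by positivity
    rw [hδ, ← mul_div_assoc, div_le_iff₀ h1]
    nlinarith
  intro c hc hbad
  set P := iid Γ ν with hP
  obtain ⟨D, hD, hDi⟩ := exists_D hc
  -- the functions
  let lam : (Γ → Bool) → ℝ := fun y => if ∀ l ∈ L, c (sh l y) * l = c y then 0 else 1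
  let θ : (Γ → Bool) → ℝ := fun y => φ y - K * lam y
  let T : (Γ → Bool) → ℝ := fun y => ∑ g ∈ D, ch c g y * θ (sh g y)
  let b : (Γ → Bool) → ℝ := fun y => if T y < M then 1 else 0
  let bd : (Γ → Bool) → ℝ := fun y => if ∀ s ∈ S, c (sh s y) * s = c y then 0 else 1
  have hlocall : ∀ (A : Finset Γ), Loc (fun y => ∀ l ∈ A, c (sh l y) * l = c y) := fun A =>
    loc_all A (fun l y => c (sh l y) * l = c y)
      fun l _ => loc_map₂ (fun a b => a * l = b) (loc_sh l hc) hc
  have hlocif : ∀ (A : Finset Γ),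
      Loc (fun y => if ∀ l ∈ A, c (sh l y) * l = c y then (0 : ℝ) else 1) := by
    intro A
    obtain ⟨K', hK'⟩ := hlocall A
    refine ⟨K', fun x y hxy => ?_⟩
    have h1 : (∀ l ∈ A, c (sh l x) * l = c x) = (∀ l ∈ A, c (sh l y) * l = c y) := hK' x y hxy
    by_cases h : ∀ l ∈ A, c (sh l x) * l = c x
    · have h' : ∀ l ∈ A, c (sh l y) * l = c y := h1 ▸ h
      simp only [if_pos h, if_pos h']
    · have h' : ¬ ∀ l ∈ A, c (sh l y) * l = c y := h1 ▸ h
      simp only [if_neg h, if_neg h']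
  have hlam : BM lam := loc_BM (hlocif L)
  have hbd : BM bd := loc_BM (hlocif S)
  have hφB : BM φ := ⟨hφm, C, hC⟩
  have hθ : BM θ := hφB.sub ((BM.const K).mul hlam)
  have hT : BM T := BM.sum D (fun g y => ch c g y * θ (sh g y)) fun g _ =>
    (loc_BM (loc_ch hc g)).mul (hθ.sh g)
  have hTm : MeasurableSet {y | T y < M} := measurableSet_lt hT.1 measurable_const
  have hb : BM b := by
    refine ⟨Measurable.ite hTm measurable_const measurable_const, 1, fun y => ?_⟩
    simp only [b]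
    split_ifs <;> simp
  have hTi : ∀ g y, c (sh g y) * g = c y → T (sh g y) = T y := by
    intro h y hh
    have h1 := sum_cell D hD hh (fun g => θ (sh g y))
    simp only [T]
    rw [← h1]
    refine Finset.sum_congr rfl fun g _ => ?_
    rw [sh_sh]
  have hbi : ∀ g y, c (sh g y) * g = c y → b (sh g y) = b y := by
    intro g y h
    simp only [b]
    rw [hTi g y h]
  obtain ⟨hN1, hNi, hmass⟩ := mass ν hc D hD hDi b θ hb hθ hbi
  have hb01 : ∀ y, b y = 0 ∨ b y = 1 := by
    intro y; simp only [b]; split_ifs <;> simp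
  have hbd0 : ∀ y, 0 ≤ bd y := by
    intro y; simp only [bd]; split_ifs <;> simp
  have hch0 : ∀ g y, 0 ≤ ch c g y := by
    intro g y; unfold ch; split_ifs <;> norm_num
  -- the number of elements of the cell
  have hNS : ∀ y, (∑ g ∈ D, ch c g y)⁻¹ ≤ (m : ℝ)⁻¹ + bd y := by
    intro y
    by_cases h : ∀ s ∈ S, c (sh s y) * s = c y
    · have h1 : bd y = 0 := by simp only [bd]; rw [if_pos h]
      rw [h1, add_zero]
      have h2 : (m : ℝ) ≤ ∑ g ∈ D, ch c g y := by
        refine hScard.trans ?_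
        have h3 : S ⊆ D := fun s hs => hD s y (h s hs)
        calc (S.card : ℝ) = ∑ g ∈ S, (1 : ℝ) := by simp
          _ = ∑ g ∈ S, ch c g y := by
              refine Finset.sum_congr rfl fun g hg => ?_
              unfold ch
              rw [if_pos (h g hg)]
          _ ≤ ∑ g ∈ D, ch c g y := Finset.sum_le_sum_of_subset_of_nonneg h3
              fun g _ _ => hch0 g y
      exact inv_anti₀ hm0 h2
    · have h1 : bd y = 1 := by simp only [bd]; rw [if_neg h]
      rw [h1]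
      have h2 : (∑ g ∈ D, ch c g y)⁻¹ ≤ 1 := inv_le_one_of_one_le₀ (hN1 y)
      have h3 : 0 < (m : ℝ)⁻¹ := by positivity
      linarith
  set β : ℝ := ∫ y, bd y ∂P with hβ
  -- (1)
  have i1 : ∫ y, b y * θ y ∂P ≤ Mp * ((m : ℝ)⁻¹ + β) := by
    rw [hmass]
    have hR : BM (fun y => Mp * ((m : ℝ)⁻¹ + bd y)) :=
      (BM.const Mp).mul ((BM.const _).add hbd)
    have h1 : ∀ y, b y * (∑ g ∈ D, ch c g y)⁻¹ * ∑ g ∈ D, ch c g y * θ (sh g y) ≤
        Mp * ((m : ℝ)⁻¹ + bd y) := by
      intro y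
      have hr : 0 ≤ Mp * ((m : ℝ)⁻¹ + bd y) :=
        mul_nonneg hMp0 (add_nonneg (by positivity) (hbd0 y))
      by_cases hy : T y < M
      · have h2 : b y = 1 := by simp only [b]; rw [if_pos hy]
        rw [h2, one_mul]
        change (∑ g ∈ D, ch c g y)⁻¹ * T y ≤ _
        have h3 : 0 < (∑ g ∈ D, ch c g y)⁻¹ := inv_pos.2 (by linarith [hN1 y])
        calc (∑ g ∈ D, ch c g y)⁻¹ * T y ≤ (∑ g ∈ D, ch c g y)⁻¹ * Mp :=
              mul_le_mul_of_nonneg_left (by linarith) h3.le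
          _ ≤ ((m : ℝ)⁻¹ + bd y) * Mp := mul_le_mul_of_nonneg_right (hNS y) hMp0
          _ = _ := mul_comm _ _
      · have h2 : b y = 0 := by simp only [b]; rw [if_neg hy]
        rw [h2, zero_mul, zero_mul]
        exact hr
    have h2 := integral_mono (((hb.mul hNi).mul hT).int ν) (hR.int ν) h1
    refine h2.trans (le_of_eq ?_)
    rw [integral_const_mul, integral_add ((BM.const _).int ν) (hbd.int ν), integral_const]
    simp [hβ, hP]
  -- (2)
  have i2 : ∫ y, b y * φ y ∂P ≤ (∫ y, b y * θ y ∂P) + K * β := by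
    rw [hβ, ← integral_const_mul, ← integral_add ((hb.mul hθ).int ν)
      (((BM.const K).mul hbd).int ν)]
    refine integral_mono ((hb.mul hφB).int ν) (((hb.mul hθ).add ((BM.const K).mul hbd)).int ν) ?_
    intro y
    have h1 : lam y ≤ bd y := by
      simp only [lam, bd]
      by_cases h : ∀ s ∈ S, c (sh s y) * s = c y
      · rw [if_pos h, if_pos fun l hl => h l (hLS l hl)]
      · rw [if_neg h]
        split_ifs <;> norm_num
    have h2 : K * lam y ≤ K * bd y := mul_le_mul_of_nonneg_left h1 hK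
    have h3 : 0 ≤ K * bd y := mul_nonneg hK (hbd0 y)
    change b y * φ y ≤ b y * (φ y - K * lam y) + K * bd y
    rcases hb01 y with h | h
    · rw [h]; linarith
    · rw [h]; linarith
  -- (3)
  have i3 : ∀ i ∈ Finset.range m, ∫ y, b y * φ (sh (γ i) y) ∂P ≤
      (∫ y, b y * φ y ∂P) + C * β := by
    intro i hi
    rw [hβ, ← integral_const_mul, ← int_sh ν (γ i) (hb.mul hφB).1,
      ← integral_add (((hb.mul hφB).sh (γ i)).int ν) (((BM.const C).mul hbd).int ν)]
    refine integral_mono ((hb.mul (hφB.sh (γ i))).int ν)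
      ((((hb.mul hφB).sh (γ i)).add ((BM.const C).mul hbd)).int ν) ?_
    intro y
    change b y * φ (sh (γ i) y) ≤ b (sh (γ i) y) * φ (sh (γ i) y) + C * bd y
    by_cases h : ∀ s ∈ S, c (sh s y) * s = c y
    · rw [hbi _ _ (h _ (hγS i hi))]
      have h3 : 0 ≤ C * bd y := mul_nonneg hC0 (hbd0 y)
      linarith
    · have h1 : bd y = 1 := by simp only [bd]; rw [if_neg h]
      rw [h1, mul_one]
      have h2 := abs_le.1 (hC (sh (γ i) y))
      rcases hb01 y with h3 | h3 <;> rcases hb01 (sh (γ i) y) with h4 | h4 <;>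
        rw [h3, h4] <;> linarith [h2.1, h2.2]
  -- (4)
  let A : (Γ → Bool) → ℝ := fun y => (m : ℝ)⁻¹ * ∑ i ∈ Finset.range m, φ (sh (γ i) y)
  have hA : BM A := (BM.const _).mul (BM.sum (Finset.range m) (fun i y => φ (sh (γ i) y))
    fun i _ => hφB.sh (γ i))
  have i4 : ∫ y, b y * A y ∂P ≤ (∫ y, b y * φ y ∂P) + C * β := by
    have h1 : ∀ y, b y * A y = (m : ℝ)⁻¹ * ∑ i ∈ Finset.range m, b y * φ (sh (γ i) y) := by
      intro y
      simp only [A]
      rw [← Finset.mul_sum]
      ring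
    rw [integral_congr_ae (ae_of_all _ h1), integral_const_mul,
      integral_finsetSum _ fun i _ => (hb.mul (hφB.sh (γ i))).int ν]
    have h2 := Finset.sum_le_sum i3
    rw [Finset.sum_const, Finset.card_range, nsmul_eq_mul] at h2
    calc (m : ℝ)⁻¹ * ∑ i ∈ Finset.range m, ∫ y, b y * φ (sh (γ i) y) ∂P
        ≤ (m : ℝ)⁻¹ * (m * ((∫ y, b y * φ y ∂P) + C * β)) :=
          mul_le_mul_of_nonneg_left h2 (by positivity)
      _ = _ := by
          rw [← mul_assoc, inv_mul_cancel₀ hm0.ne', one_mul]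
  -- (5)
  have hV := var ν W hW C hC γ hγ m hmpos
  have hsq : BM (fun y => (A y - E) ^ 2) := by
    have h1 := (hA.sub (BM.const E)).mul (hA.sub (BM.const E))
    have h2 : (fun y => (A y - E) ^ 2) = fun y => (A y - E) * (A y - E) := by
      funext y; ring
    rw [h2]; exact h1
  have i5 : E * ∫ y, b y ∂P ≤ (∫ y, b y * A y ∂P) + (η + η⁻¹ * (4 * C ^ 2 / m)) := by
    have h1 : ∀ y, E * b y ≤ b y * A y + (η + η⁻¹ * (A y - E) ^ 2) := by
      intro y
      have h2 : 0 ≤ η + η⁻¹ * (A y - E) ^ 2 := by positivity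
      rcases hb01 y with h | h
      · rw [h]; linarith
      · rw [h]
        have h3 : E - A y ≤ η + η⁻¹ * (A y - E) ^ 2 := by
          have h4 : η * η⁻¹ = 1 := mul_inv_cancel₀ hηpos.ne'
          have h5 : 0 < η⁻¹ := inv_pos.2 hηpos
          have h6 : 0 ≤ η⁻¹ * ((A y - E) + η) ^ 2 := by positivity
          have h7 : η⁻¹ * ((A y - E) + η) ^ 2 =
              η⁻¹ * (A y - E) ^ 2 + 2 * (η * η⁻¹) * (A y - E) + (η * η⁻¹) * η := by ring
          rw [h7, h4] at h6
          by_cases h8 : 0 ≤ E - A y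
          · linarith
          · linarith
        linarith
    have h2 := integral_mono (((BM.const E).mul hb).int ν)
      (((hb.mul hA).add ((BM.const η).add ((BM.const η⁻¹).mul hsq))).int ν) h1
    rw [integral_const_mul, integral_add ((hb.mul hA).int ν)
      (((BM.const η).add ((BM.const η⁻¹).mul hsq)).int ν),
      integral_add ((BM.const η).int ν) (((BM.const η⁻¹).mul hsq).int ν), integral_const,
      integral_const_mul] at h2
    have h3 : η⁻¹ * ∫ y, (A y - E) ^ 2 ∂P ≤ η⁻¹ * (4 * C ^ 2 / m) :=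
      mul_le_mul_of_nonneg_left hV (inv_pos.2 hηpos).le
    simp only [probReal_univ, smul_eq_mul, one_mul] at h2
    rw [← hP] at h2
    linarith
  -- the bad event
  have hbdset : {y | ∃ s ∈ S, c (sh s y) * s ≠ c y} = {y | ¬ ∀ s ∈ S, c (sh s y) * s = c y} := by
    ext y
    simp only [Set.mem_ofPred_eq]
    push Not
    rfl
  have hbdm : MeasurableSet {y | ¬ ∀ s ∈ S, c (sh s y) * s = c y} := by
    have h1 : {y | ¬ ∀ s ∈ S, c (sh s y) * s = c y} = bd ⁻¹' {1} := by
      ext y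
      simp only [Set.mem_ofPred_eq, Set.mem_preimage, Set.mem_singleton_iff, bd]
      split_ifs with h
      · exact ⟨fun h' => absurd h h', fun h' => absurd h' (by norm_num)⟩
      · exact ⟨fun _ => rfl, fun _ => h⟩
    rw [h1]
    exact hbd.1 (measurableSet_singleton _)
  have hβδ : β ≤ δ := by
    have h1 : bd = ({y | ¬ ∀ s ∈ S, c (sh s y) * s = c y} : Set (Γ → Bool)).indicator 1 := by
      funext y
      by_cases h : ∀ s ∈ S, c (sh s y) * s = c y
      · rw [Set.indicator_of_notMem (by simpa using h)]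
        simp only [bd]
        rw [if_pos h]
      · rw [Set.indicator_of_mem (by exact h)]
        simp only [bd]
        rw [if_neg h]
        rfl
    rw [hβ, h1, integral_indicator_one hbdm]
    rw [hbdset] at hbad
    have h2 := ENNReal.toReal_mono ENNReal.ofReal_ne_top hbad
    rw [ENNReal.toReal_ofReal (by positivity)] at h2
    exact h2
  have hβ0 : 0 ≤ β := integral_nonneg hbd0
  have hfin : E * ∫ y, b y ∂P ≤ e0 := by
    have h1 : Mp * ((m : ℝ)⁻¹ + β) = Mp / m + Mp * β := by ring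
    have h2 : (Mp + K + C) * β ≤ (Mp + K + C) * δ :=
      mul_le_mul_of_nonneg_left hβδ (by positivity)
    have h3 : η⁻¹ * (4 * C ^ 2 / m) = 4 * C ^ 2 / m / η := by
      rw [div_eq_mul_inv _ η, mul_comm]
    rw [h1] at i1
    rw [h3] at i5
    have h4 : (Mp + K + C) * β = Mp * β + K * β + C * β := by ring
    have h5 : η = e0 / 4 := hη
    linarith
  have hPB : ∫ y, b y ∂P = P.real {y | T y < M} := by
    have h1 : b = ({y | T y < M} : Set (Γ → Bool)).indicator 1 := by
      funext y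
      by_cases h : T y < M
      · rw [Set.indicator_of_mem (by exact h)]
        simp only [b]
        rw [if_pos h]
        rfl
      · rw [Set.indicator_of_notMem (by exact h)]
        simp only [b]
        rw [if_neg h]
    rw [h1, integral_indicator_one hTm]
  rw [hPB, he0, mul_comm ε E] at hfin
  have hfin2 : P.real {y | T y < M} ≤ ε := le_of_mul_le_mul_left hfin hE
  have hset : {y | ∑ᶠ g ∈ {g : Γ | c (sh g y) * g = c y},
      (φ (sh g y) - K * (if ∀ l ∈ L, c (sh (l * g) y) * (l * g) = c y then 0 else 1)) < M} =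
      {y | T y < M} := by
    ext y
    have h1 : {g : Γ | c (sh g y) * g = c y} =
        ((D.filter fun g => c (sh g y) * g = c y : Finset Γ) : Set Γ) := by
      ext g
      simp only [Set.mem_ofPred_eq, Finset.coe_filter]
      exact ⟨fun h => ⟨hD g y h, h⟩, fun h => h.2⟩
    have h2 : ∑ᶠ g ∈ {g : Γ | c (sh g y) * g = c y},
        (φ (sh g y) - K * (if ∀ l ∈ L, c (sh (l * g) y) * (l * g) = c y then 0 else 1)) =
        T y := by
      rw [h1, finsum_mem_coe_finset, Finset.sum_filter]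
      refine Finset.sum_congr rfl fun g _ => ?_
      unfold ch
      by_cases h : c (sh g y) * g = c y
      · rw [if_pos h, if_pos h, one_mul]
        simp only [θ, lam]
        congr 2
        have h3 : (∀ l ∈ L, c (sh (l * g) y) * (l * g) = c y) ↔
            ∀ l ∈ L, c (sh l (sh g y)) * l = c (sh g y) := by
          constructor
          · intro h4 l hl
            exact (cell_sh h).2 (h4 l hl)
          · intro h4 l hl
            exact (cell_sh h).1 (h4 l hl)
        by_cases h4 : ∀ l ∈ L, c (sh l (sh g y)) * l = c (sh g y)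
        · rw [if_pos (h3.2 h4), if_pos h4]
        · rw [if_neg (fun h5 => h4 (h3.1 h5)), if_neg h4]
      · rw [if_neg h, if_neg h, zero_mul]
    rw [Set.mem_ofPred_eq, Set.mem_ofPred_eq, h2]
  rw [hset]
  rw [← ENNReal.ofReal_toReal (measure_ne_top P {y | T y < M})]
  exact ENNReal.ofReal_le_ofReal hfin2

end Pool.Agent.W110.FI
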